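import Pool.Agent.H78.GX.H78.GS.TA3

/-!
# Theorem (G), section 3a, STA: the start of the induction on the scale
-/

set_option autoImplicit false

open Finset Pool.Agent.H6.N4D Pool.Agent.H78.GX.H6.N4D Pool.Agent.H78.GX

namespace Pool.Agent.H78.GX.H36.GS

open Pool.Agent.H78.GX.H78.GS

/-- there is a point outside of five small sets -/
theorem exists_good {S : Par} (hN : 0 < S.N) {E₁ E₂ E₃ E₄ E₅ : ℤ → Prop}
    {k₁ k₂ k₃ k₄ k₅ : ℝ} (h1 : S.cnt E₁ ≤ k₁ * S.N) (h2 : S.cnt E₂ ≤ k₂ * S.N)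
    (h3 : S.cnt E₃ ≤ k₃ * S.N) (h4 : S.cnt E₄ ≤ k₄ * S.N) (h5 : S.cnt E₅ ≤ k₅ * S.N)
    (hk : k₁ + k₂ + k₃ + k₄ + k₅ < 1) :
    ∃ t ∈ S.I, ¬ E₁ t ∧ ¬ E₂ t ∧ ¬ E₃ t ∧ ¬ E₄ t ∧ ¬ E₅ t := by
  by_contra hcon
  push Not at hcon
  have hall : ∀ t ∈ S.I, E₁ t ∨ E₂ t ∨ E₃ t ∨ E₄ t ∨ E₅ t := by
    intro t ht
    by_contra hno
    push Not at hno
    exact hno.2.2.2.2 (hcon t ht hno.1 hno.2.1 hno.2.2.1 hno.2.2.2.1)
  have hc : (S.I.card : ℝ) = S.N := Par.card_I hN.le
  have ht : S.cnt (fun _ => True) = S.I.card := by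
    unfold Par.cnt Par.fl
    rw [filter_true]
  have a1 : S.cnt (fun _ => True) ≤ S.cnt (fun t => E₁ t ∨ E₂ t ∨ E₃ t ∨ E₄ t ∨ E₅ t) :=
    Par.cnt_mono fun t ht _ => hall t ht
  have a2 := Par.cnt_or (S := S) E₁ (fun t => E₂ t ∨ E₃ t ∨ E₄ t ∨ E₅ t)
  have a3 := Par.cnt_or (S := S) E₂ (fun t => E₃ t ∨ E₄ t ∨ E₅ t)
  have a4 := Par.cnt_or (S := S) E₃ (fun t => E₄ t ∨ E₅ t)
  have a5 := Par.cnt_or (S := S) E₄ E₅
  rw [ht, hc] at a1
  have a6 : S.N ≤ (k₁ + k₂ + k₃ + k₄ + k₅) * S.N := by nlinarith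
  nlinarith

/-- STA. The start of the induction. -/
theorem pf_STA : T_STA := by
  classical
  intro S m e₁ κ ν e e₀ ε θ φ F₀ F hS hS' hN' he₁ he₁' hν hν' he₀ he₀' hκ hκ' he he' hε hε' hm
    hrm hsep hshf hsub hempty hstep hdic
  have hh : 0 < S.h := hS.hh
  have hrho : 0 < S.rho := hS.hr0
  have hrho1 : S.rho ≤ 1 := hS.rho_one
  have hNN : S.N ≤ 13 / 12 * (cut S m).N := by
    have h1 := hS.hI2
    have h2 : 12 * S.K * S.L ≤ (cut S m).N * S.h := hS'.hI1
    have h3 : S.N * S.h ≤ 13 / 12 * (cut S m).N * S.h := by nlinarith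
    exact le_of_mul_le_mul_right h3 hh
  have hInI : ∀ t ∈ (cut S m).I, t ∈ S.I := by
    intro t ht
    rw [Par.mem_I] at ht ⊢
    have h1 : (cut S m).a = S.a + m := rfl
    have h2 : (cut S m).b = S.b - m := rfl
    rw [h1, h2] at ht
    omega
  have hcut : ∀ E : ℤ → Prop, (cut S m).cnt E ≤ S.cnt E := by
    intro E
    unfold Par.cnt
    exact_mod_cast card_le_card (fun t ht => by
      rw [Par.mem_fl] at ht ⊢; exact ⟨hInI t ht.1, ht.2⟩)
  have main : ∀ D : ℕ, (D : ℝ) * S.h ≤ S.rho / 4 → Hit (cut S m) e₁ κ ν θ F D 0 := by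
    intro D
    induction D with
    | zero =>
      intro _
      unfold Hit
      have h1 : (cut S m).cnt (fun t => ∃ j ∈ F t, ∀ i ∈ F (t + ((0 : ℕ) : ℤ)),
          ν < ds (cut S m) e₁ θ 0 0 t j i) ≤ (cut S m).cnt (fun _ => False) := by
        refine Par.cnt_mono ?_
        rintro t - ⟨j, hj, hall⟩
        have h2 := hall j (by rw [Nat.cast_zero, add_zero]; exact hj)
        unfold ds at h2
        rw [Nat.cast_zero, add_zero, sub_self, zero_div, sub_zero] at h2
        have h3 : nd 0 = 0 := by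
          unfold nd
          simp
        rw [h3, mul_zero] at h2
        linarith
      have h4 : (cut S m).cnt (fun _ => False) = 0 := by
        unfold Par.cnt Par.fl
        rw [filter_false, card_empty, Nat.cast_zero]
      rw [h4] at h1
      refine h1.trans ?_
      positivity
    | succ D ih =>
      intro hD
      have hD' : ((D : ℝ) + 1) * S.h ≤ S.rho / 4 := by
        rw [Nat.cast_add, Nat.cast_one] at hD
        exact hD
      have hD0 : (D : ℝ) * S.h ≤ S.rho / 4 := by nlinarith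
      have hHit := ih hD0
      rcases hdic (D + 1) hD with hgood | hbad
      · exact hgood
      exfalso
      have hDm : (D : ℤ) + 1 ≤ m := by
        have h1 : ((D : ℝ) + 1) * S.h ≤ (m : ℝ) * S.h := hD'.trans hrm
        have h2 : (D : ℝ) + 1 ≤ (m : ℝ) := le_of_mul_le_mul_right h1 hh
        exact_mod_cast h2
      have b4 : (cut S m).cnt (fun t => t + ((D + 1 : ℕ) : ℤ) ∈ S.I ∧
          ¬ Mat (RS S e₀ θ φ (D + 1) t) (F₀ t) (F₀ (t + ((D + 1 : ℕ) : ℤ)))) ≤
          (13 / 12 * ε) * (cut S m).N := by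
        refine (hcut _).trans ((hshf (D + 1) hD).trans ?_)
        have := mul_le_mul_of_nonneg_left hNN hε
        linarith
      obtain ⟨t, ht, c1, c2, c3, c4, c5⟩ := exists_good hN' hHit hempty (hstep D hD0) b4 hbad
        (by linarith)
      have htS := hInI t ht
      have htD : t + ((D + 1 : ℕ) : ℤ) ∈ S.I := by
        rw [Par.mem_I] at ht htS ⊢
        have h2 : (cut S m).b = S.b - m := rfl
        rw [h2] at ht
        push_cast
        omega
      have hc4 : Mat (RS S e₀ θ φ (D + 1) t) (F₀ t) (F₀ (t + ((D + 1 : ℕ) : ℤ))) := by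
        by_contra hno
        exact c4 ⟨htD, hno⟩
      obtain ⟨j, hj⟩ := nonempty_iff_ne_empty.2 c2
      have hc1 : ∃ i ∈ F (t + (D : ℤ)), ds (cut S m) e₁ θ D 0 t j i ≤ ν := by
        by_contra hno
        push Not at hno
        exact c1 ⟨j, hj, hno⟩
      obtain ⟨i, hi, hi2⟩ := hc1
      rw [not_not] at c3
      obtain ⟨i', hi', hi'2, -⟩ := c3 i hi
      obtain ⟨i₀, hi₀, hi₀2, -⟩ := hc4.1 j (hsub t hj)
      have hx0 : 0 < S.x t := Par.x_pos t
      have hrx : 0 < S.rho * S.x t := mul_pos hrho hx0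
      have hcast : t + (D : ℤ) + 1 = t + ((D + 1 : ℕ) : ℤ) := by
        push_cast
        ring
      have hcast' : t + (D : ℤ) + ((1 : ℕ) : ℤ) = t + ((D + 1 : ℕ) : ℤ) := by
        push_cast
        ring
      rw [hcast] at hi'
      rw [hcast'] at hi'2
      -- the three distances
      have d1 : nd (θ (t + (D : ℤ)) i - θ t j) ≤ ν * e₁ / (S.rho * S.x t) := by
        unfold ds at hi2
        have hx' : (cut S m).x t = S.x t := rfl
        have hr' : (cut S m).rho = S.rho := rfl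
        rw [hx', hr', zero_div, sub_zero] at hi2
        rw [le_div_iff₀ hrx]
        rw [div_mul_eq_mul_div, div_le_iff₀ he₁] at hi2
        linarith
      have d2 : nd (θ (t + ((D + 1 : ℕ) : ℤ)) i' - θ (t + (D : ℤ)) i) ≤
          e₀ / (S.rho * S.x t) := by
        refine hi'2.trans ?_
        refine div_le_div_of_nonneg_left he₀ hrx ?_
        refine mul_le_mul_of_nonneg_left ?_ hrho.le
        exact Par.x_mono hh (by omega)
      have d3 := hi₀2
      have d4 : nd (θ (t + ((D + 1 : ℕ) : ℤ)) i' - θ (t + ((D + 1 : ℕ) : ℤ)) i₀) ≤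
          1 / 4 / (S.rho * S.x t) := by
        have e1 := nd_tri (θ (t + ((D + 1 : ℕ) : ℤ)) i') (θ (t + (D : ℤ)) i)
          (θ (t + ((D + 1 : ℕ) : ℤ)) i₀)
        have e2 := nd_tri (θ (t + (D : ℤ)) i) (θ t j) (θ (t + ((D + 1 : ℕ) : ℤ)) i₀)
        have e3 : nd (θ t j - θ (t + ((D + 1 : ℕ) : ℤ)) i₀) ≤ e₀ / (S.rho * S.x t) := by
          rw [nd_sub_comm]
          exact d3
        have e4 : e₀ / (S.rho * S.x t) + (ν * e₁ / (S.rho * S.x t) + e₀ / (S.rho * S.x t)) ≤
            1 / 4 / (S.rho * S.x t) := by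
          rw [← add_div, ← add_div]
          refine div_le_div_of_nonneg_right ?_ hrx.le
          have : ν * e₁ ≤ 1 / 8 := by nlinarith
          linarith
        linarith
      have heq : i' = i₀ := by
        by_contra hne
        have e5 := hsep _ htD i' (hsub _ hi') i₀ hi₀ hne
        have e6 : S.x (t + ((D + 1 : ℕ) : ℤ)) ≤ 2 * S.x t := by
          rw [Par.x_add]
          have e7 : Real.exp (S.h * (((D + 1 : ℕ) : ℤ) : ℝ)) ≤ 2 := by
            have e8 : S.h * (((D + 1 : ℕ) : ℤ) : ℝ) ≤ 1 / 4 := by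
              push_cast
              linarith
            have e9 : Real.exp (1 / 4 : ℝ) ≤ 2 := by
              have h5 : Real.exp (1 / 4 : ℝ) ≤ Real.exp (Real.log 2) :=
                Real.exp_le_exp.2 (by linarith [Real.log_two_gt_d9])
              rwa [Real.exp_log (by norm_num)] at h5
            exact (Real.exp_le_exp.2 e8).trans e9
          nlinarith
        have e10 : 1 / 2 / (S.rho * S.x t) ≤
            nd (θ (t + ((D + 1 : ℕ) : ℤ)) i' - θ (t + ((D + 1 : ℕ) : ℤ)) i₀) := by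
          refine le_trans ?_ e5
          rw [div_div, div_le_div_iff_of_pos_left one_pos (by positivity)
            (mul_pos hrho (Par.x_pos _))]
          nlinarith
        have e11 : 1 / 4 / (S.rho * S.x t) < 1 / 2 / (S.rho * S.x t) :=
          div_lt_div_of_pos_right (by norm_num) hrx
        linarith
      apply c5
      refine ⟨j, hj, i', hi', ?_⟩
      unfold ds
      have hx' : (cut S m).x t = S.x t := rfl
      have hr' : (cut S m).rho = S.rho := rfl
      rw [hx', hr', zero_div, sub_zero, heq]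
      calc S.rho * S.x t / e₁ * nd (θ (t + ((D + 1 : ℕ) : ℤ)) i₀ - θ t j) ≤
          S.rho * S.x t / e₁ * (e₀ / (S.rho * S.x t)) :=
            mul_le_mul_of_nonneg_left d3 (by positivity)
        _ = e₀ / e₁ := by field_simp
        _ ≤ ν / 2 := by
            rw [div_le_iff₀ he₁]
            linarith
  intro D hD
  rw [zero_mul]
  refine main D ?_
  have h1 : (D : ℝ) ≤ S.rho / (4 * S.h) := by
    have h2 : (D : ℝ) ≤ (⌊S.rho / (4 * S.h)⌋₊ : ℝ) := by exact_mod_cast hD
    exact h2.trans (Nat.floor_le (by positivity))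
  rw [le_div_iff₀ (by positivity)] at h1
  linarith

end Pool.Agent.H78.GX.H36.GS
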